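import Pool.Agent.H47.L.R_seed8.H484R2.Defs
import Pool.Agent.H47.L.R_seed8.H484R2.Quad

/-! Independence modulo squares of the Kummer classes `c_i(y)` and its inheritance by `E(v)`. -/

set_option autoImplicit false
open Polynomial NumberField Module

namespace Pool.Agent.H484R2

section
variable {E : Type} [Field E] [NumberField E] (b c : ℤ)

/-- the Kummer classes of the tree over `y` -/
noncomputable def cE (y : 𝓞 E) (i : ℕ) : E :=
  if i = 1 then (y : E) - ((orb b c 1 : ℚ) : E) else ((orb b c i : ℚ) : E) - (y : E)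

/-- products of the classes; the flag says whether the product is nontrivial -/
def PR : List (ℕ × 𝓞 E) → Bool → E → Prop
  | [], t, P => t = false ∧ P = 1
  | (C, y) :: L, t, P => ∃ s : Finset ℕ, s ⊆ Finset.Icc 1 C ∧ ∃ t' P', PR L t' P' ∧
      P = (∏ i ∈ s, cE b c y i) * P' ∧ (t = true ↔ (s.Nonempty ∨ t' = true))

/-- independence -/
def Ind (L : List (ℕ × 𝓞 E)) : Prop := ∀ P, PR b c L true P → ¬ IsSquare P

lemma PR_one (L : List (ℕ × 𝓞 E)) : PR b c L false 1 := by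
  induction L with
  | nil => exact ⟨rfl, rfl⟩
  | cons a L ih =>
    obtain ⟨C, y⟩ := a
    exact ⟨∅, by simp, false, 1, ih, by simp, by simp⟩

lemma PR_false {L : List (ℕ × 𝓞 E)} {P : E} (h : PR b c L false P) : P = 1 := by
  induction L generalizing P with
  | nil => exact h.2
  | cons a L ih =>
    obtain ⟨C, y⟩ := a
    obtain ⟨s, hs, t', P', hP', rfl, ht⟩ := h
    simp only [Bool.false_eq_true, false_iff, not_or, Bool.not_eq_true,
      Finset.not_nonempty_iff_eq_empty] at ht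
    obtain ⟨rfl, rfl⟩ := ht
    rw [ih hP']
    simp

lemma Ind.tail {a : ℕ × 𝓞 E} {L : List (ℕ × 𝓞 E)} (h : Ind b c (a :: L)) : Ind b c L := by
  intro P hP
  obtain ⟨C, y⟩ := a
  exact h P ⟨∅, by simp, true, P, hP, by simp, by simp⟩

lemma Ind.drop_second {a a' : ℕ × 𝓞 E} {L : List (ℕ × 𝓞 E)} (h : Ind b c (a :: a' :: L)) :
    Ind b c (a :: L) := by
  intro P hP
  obtain ⟨C, y⟩ := a
  obtain ⟨C', y'⟩ := a'
  obtain ⟨s, hs, t', P', hP', rfl, ht⟩ := hP
  exact h _ ⟨s, hs, t', P', ⟨∅, by simp, t', P', hP', by simp, by simp⟩, rfl, ht⟩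

lemma Ind.ne_zero {L : List (ℕ × 𝓞 E)} (h : Ind b c L) {t : Bool} {P : E} (hP : PR b c L t P) :
    P ≠ 0 := by
  cases t with
  | false => rw [PR_false b c hP]; exact one_ne_zero
  | true =>
    rintro rfl
    exact h 0 hP ⟨0, by simp⟩

lemma Ind.head_ne {C : ℕ} {y : 𝓞 E} {L : List (ℕ × 𝓞 E)} (h : Ind b c ((C, y) :: L))
    {s : Finset ℕ} (hs : s ⊆ Finset.Icc 1 C) : ∏ i ∈ s, cE b c y i ≠ 0 := by
  by_cases hn : s.Nonempty
  · refine h.ne_zero (t := true) (P := (∏ i ∈ s, cE b c y i)) (b := b) (c := c) ?_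
    exact ⟨s, hs, false, 1, PR_one b c L, by simp, by simp [hn]⟩
  · rw [Finset.not_nonempty_iff_eq_empty] at hn
    subst hn
    simp

lemma Ind.head_sq {C : ℕ} {y : 𝓞 E} {L : List (ℕ × 𝓞 E)} (h : Ind b c ((C, y) :: L))
    {s : Finset ℕ} (hs : s ⊆ Finset.Icc 1 C) (hsq : IsSquare (∏ i ∈ s, cE b c y i)) : s = ∅ := by
  by_contra hn
  have hn' : s.Nonempty := Finset.nonempty_iff_ne_empty.mpr hn
  exact h (∏ i ∈ s, cE b c y i) ⟨s, hs, false, 1, PR_one b c L, by simp, by simp [hn']⟩ hsq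

end

lemma isSquare_of_mul_sq {F : Type*} [Field F] {a m : F} (hm : m ≠ 0) (h : IsSquare (a * m ^ 2)) :
    IsSquare a := by
  obtain ⟨z, hz⟩ := h
  refine ⟨z / m, ?_⟩
  field_simp
  linear_combination hz

section step

variable {E : Type} [Field E] [NumberField E] (b c : ℤ)
variable {E' : Type} [Field E'] [NumberField E'] [Algebra E E']

/-- image of a list -/
def mapL (E' : Type) [Field E'] [NumberField E'] [Algebra E E'] (L : List (ℕ × 𝓞 E)) :
    List (ℕ × 𝓞 E') :=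
  L.map fun p => (p.1, algebraMap (𝓞 E) (𝓞 E') p.2)

lemma cE_map (y : 𝓞 E) (i : ℕ) :
    cE b c (algebraMap (𝓞 E) (𝓞 E') y) i = algebraMap E E' (cE b c y i) := by
  have h : ((algebraMap (𝓞 E) (𝓞 E') y : 𝓞 E') : E') = algebraMap E E' (y : E) := rfl
  unfold cE
  split_ifs <;> rw [h, map_sub, map_ratCast]

lemma PR_map {L : List (ℕ × 𝓞 E)} {t : Bool} {P' : E'} (h : PR b c (mapL E' L) t P') :
    ∃ P : E, P' = algebraMap E E' P ∧ PR b c L t P := by
  induction L generalizing t P' with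
  | nil =>
    obtain ⟨rfl, rfl⟩ := h
    exact ⟨1, by simp, rfl, rfl⟩
  | cons a L ih =>
    obtain ⟨C, y⟩ := a
    obtain ⟨s, hs, t', Q', hQ', rfl, ht⟩ := h
    obtain ⟨Q, rfl, hQ⟩ := ih hQ'
    refine ⟨(∏ i ∈ s, cE b c y i) * Q, ?_, s, hs, t', Q, hQ, rfl, ht⟩
    rw [map_mul, map_prod]
    congr 1
    exact Finset.prod_congr rfl fun i _ => cE_map b c y i

variable {b c}
variable {y : 𝓞 E} {v : 𝓞 E'}

/-- squares of `E'` lying in `E` -/
lemma sq_desc (hD : ¬ IsSquare (4 * (y : E) + b ^ 2 - 4 * c))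
    (hv : (v : E') ^ 2 + b * v + c = algebraMap E E' y)
    (hspan : ∀ z : E', ∃ α β : E, z = algebraMap E E' α + algebraMap E E' β * v)
    {P : E} (h : IsSquare (algebraMap E E' P)) :
    IsSquare P ∨ IsSquare (P * (4 * (y : E) + b ^ 2 - 4 * c)) := by
  obtain ⟨w, hw⟩ := h
  obtain ⟨α, β, rfl⟩ := hspan w
  have hinj : Function.Injective (algebraMap E E') := (algebraMap E E').injective
  set D : E := 4 * (y : E) + b ^ 2 - 4 * c with hDdef
  -- r = 2 v + b
  have hr : (2 * (v : E') + b) ^ 2 = algebraMap E E' D := by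
    rw [hDdef]
    simp only [map_sub, map_add, map_mul, map_pow, map_intCast, map_ofNat]
    rw [← hv]
    ring
  have h2 : (2 : E) ≠ 0 := two_ne_zero
  have hchar : (2 : E') ≠ 0 := two_ne_zero
  set α' : E := α - β * b / 2 with hα'
  set β' : E := β / 2 with hβ'
  have hwexp : algebraMap E E' α + algebraMap E E' β * v =
      algebraMap E E' α' + algebraMap E E' β' * (2 * v + b) := by
    rw [hα', hβ']
    simp only [map_sub, map_div₀, map_mul, map_intCast, map_ofNat]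
    field_simp
    ring
  rw [hwexp] at hw
  have hexp : algebraMap E E' (P - α' ^ 2 - β' ^ 2 * D) =
      algebraMap E E' (2 * α' * β') * (2 * v + b) := by
    simp only [map_sub, map_mul, map_pow, map_ofNat]
    rw [← hr, hw]
    ring
  have hab : α' * β' = 0 := by
    by_contra hne
    apply hD
    have h3 : (2 * (v : E') + b) = algebraMap E E' ((P - α' ^ 2 - β' ^ 2 * D) / (2 * α' * β')) := by
      rw [map_div₀, hexp]
      have : algebraMap E E' (2 * α' * β') ≠ 0 := by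
        rw [Ne, map_eq_zero_iff _ hinj]
        intro h0
        apply hne
        have : 2 * (α' * β') = 0 := by linear_combination h0
        exact (mul_eq_zero.mp this).resolve_left h2
      field_simp
    rw [h3, ← map_pow] at hr
    have h4 := hinj hr
    exact ⟨(P - α' ^ 2 - β' ^ 2 * D) / (2 * α' * β'), by rw [← sq]; exact h4.symm⟩
  have hP : P = α' ^ 2 + β' ^ 2 * D := by
    have h5 : algebraMap E E' (P - α' ^ 2 - β' ^ 2 * D) = 0 := by
      rw [hexp, show (2 * α' * β' : E) = 2 * (α' * β') by ring, hab]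
      simp
    have h6 := (map_eq_zero_iff _ hinj).mp h5
    linear_combination h6
  rcases mul_eq_zero.mp hab with h0 | h0
  · right
    exact ⟨β' * D, by rw [hP, h0]; ring⟩
  · left
    exact ⟨α', by rw [hP, h0]; ring⟩

lemma orb_one (b c : ℤ) : orb b c 1 = c - (b : ℚ) ^ 2 / 4 := by
  simp only [orb, Function.iterate_one, F]
  ring

lemma orb_succ (b c : ℤ) (n : ℕ) : orb b c (n + 1) = F b c (orb b c n) := by
  simp only [orb, Function.iterate_succ_apply']

lemma D_eq {E : Type} [Field E] [NumberField E] (b c : ℤ) (y : 𝓞 E) :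
    4 * (y : E) + b ^ 2 - 4 * c = 4 * cE b c y 1 := by
  have : cE b c y 1 = (y : E) - ((orb b c 1 : ℚ) : E) := by simp [cE]
  rw [this, orb_one]
  push_cast
  ring

/-- `c_i(v₁) c_i(v₂) = c_{i+1}(y)` -/
lemma cE_mul (hv : (v : E') ^ 2 + b * v + c = algebraMap E E' y) {v₂ : 𝓞 E'}
    (hv₂ : (v₂ : E') = -b - v) {i : ℕ} (hi : 1 ≤ i) :
    cE b c v i * cE b c v₂ i = algebraMap E E' (cE b c y (i + 1)) := by
  have h1 : cE b c y (i + 1) = ((orb b c (i + 1) : ℚ) : E) - (y : E) := by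
    unfold cE
    rw [if_neg (by omega)]
  rw [h1, map_sub, map_ratCast, orb_succ, ← hv]
  unfold cE F
  push_cast
  split_ifs with h
  · subst h
    rw [hv₂]
    ring
  · rw [hv₂]
    ring

lemma prod_cE_mul (hv : (v : E') ^ 2 + b * v + c = algebraMap E E' y) {v₂ : 𝓞 E'}
    (hv₂ : (v₂ : E') = -b - v) {C : ℕ} {s : Finset ℕ} (hs : s ⊆ Finset.Icc 1 C) :
    (∏ i ∈ s, cE b c v i) * (∏ i ∈ s, cE b c v₂ i) =
      algebraMap E E' (∏ i ∈ s, cE b c y (i + 1)) := by
  rw [← Finset.prod_mul_distrib, map_prod]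
  refine Finset.prod_congr rfl fun i hi => ?_
  exact cE_mul hv hv₂ (Finset.mem_Icc.mp (hs hi)).1

/-- shifted set -/
def sh (s : Finset ℕ) : Finset ℕ := s.map ⟨fun i => i + 1, fun _ _ h => by simpa using h⟩

lemma prod_sh (y : 𝓞 E) (s : Finset ℕ) :
    ∏ i ∈ sh s, cE b c y i = ∏ i ∈ s, cE b c y (i + 1) := by
  unfold sh
  rw [Finset.prod_map]
  rfl

lemma sh_subset {C : ℕ} {s : Finset ℕ} (hs : s ⊆ Finset.Icc 1 C) :
    sh s ⊆ Finset.Icc 1 (C + 1) := by
  intro j hj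
  simp only [sh, Finset.mem_map, Function.Embedding.coeFn_mk] at hj
  obtain ⟨i, hi, h⟩ := hj
  have h' : i + 1 = j := h
  have := Finset.mem_Icc.mp (hs hi)
  rw [Finset.mem_Icc]
  omega

lemma one_notMem_sh {C : ℕ} {s : Finset ℕ} (hs : s ⊆ Finset.Icc 1 C) : 1 ∉ sh s := by
  intro hj
  simp only [sh, Finset.mem_map, Function.Embedding.coeFn_mk] at hj
  obtain ⟨i, hi, h⟩ := hj
  have h' : i + 1 = 1 := h
  have := Finset.mem_Icc.mp (hs hi)
  omega

lemma sh_nonempty {s : Finset ℕ} : (sh s).Nonempty ↔ s.Nonempty := by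
  unfold sh
  exact Finset.map_nonempty

lemma insert_subset {C : ℕ} {s : Finset ℕ} (hs : s ⊆ Finset.Icc 1 C) :
    insert 1 (sh s) ⊆ Finset.Icc 1 (C + 1) := by
  intro j hj
  rw [Finset.mem_insert] at hj
  rcases hj with rfl | hj
  · simp
  · exact sh_subset hs hj

/-- **Inheritance of independence.** -/
theorem ind_step {L : List (ℕ × 𝓞 E)} {C : ℕ} (hI : Ind b c ((C + 1, y) :: L))
    (hv : (v : E') ^ 2 + b * v + c = algebraMap E E' y) {v₂ : 𝓞 E'}
    (hv₂ : (v₂ : E') = -b - v) (σ : E' →ₐ[E] E') (hσ : σ (v : E') = -b - v)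
    (hspan : ∀ z : E', ∃ α β : E, z = algebraMap E E' α + algebraMap E E' β * v) :
    Ind b c ((C, v) :: (C, v₂) :: mapL E' L) := by
  classical
  have hD : ¬ IsSquare (4 * (y : E) + b ^ 2 - 4 * c) := by
    intro hsq
    rw [D_eq, show (4 : E) * cE b c y 1 = cE b c y 1 * 2 ^ 2 by ring] at hsq
    have h1 := isSquare_of_mul_sq two_ne_zero hsq
    have h2 := hI.head_sq b c (s := {1}) (by simp) (by simpa using h1)
    exact absurd h2 (by simp)
  rintro P ⟨s₁, hs₁, t₁, P₁, ⟨s₂, hs₂, t₂, P₂, hP₂, rfl, ht₁⟩, rfl, ht⟩ hsq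
  obtain ⟨Q, rfl, hQ⟩ := PR_map b c hP₂
  have hQ0 : Q ≠ 0 := by
    have h1 := Ind.tail b c hI
    exact h1.ne_zero b c hQ
  have hinj : Function.Injective (algebraMap E E') := (algebraMap E E').injective
  -- action of σ
  have hσ2 : σ (v₂ : E') = v := by
    rw [hv₂, map_sub, map_neg, hσ]
    simp
  have hσc : ∀ i, σ (cE b c v i) = cE b c v₂ i := by
    intro i
    unfold cE
    split_ifs <;> simp [hσ, hv₂]
  have hσc2 : ∀ i, σ (cE b c v₂ i) = cE b c v i := by
    intro i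
    unfold cE
    split_ifs <;> simp [hσ2]
  have hAA := prod_cE_mul (C := C) hv hv₂ hs₁
  have hBB := prod_cE_mul (C := C) hv hv₂ hs₂
  obtain ⟨z, hz⟩ := hsq
  have hz2 := congrArg σ hz
  simp only [map_mul, map_prod, hσc, hσc2, AlgHom.commutes] at hz2
  -- first square
  have hsq1 : IsSquare (algebraMap E E' (((∏ i ∈ s₁, cE b c y (i + 1)) *
      (∏ i ∈ s₂, cE b c y (i + 1))) * Q ^ 2)) := by
    refine ⟨z * σ z, ?_⟩
    rw [map_mul, map_mul, map_pow, ← hAA, ← hBB]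
    calc _ = ((∏ i ∈ s₁, cE b c v i) * ((∏ i ∈ s₂, cE b c v₂ i) * algebraMap E E' Q)) *
          ((∏ i ∈ s₁, cE b c v₂ i) * ((∏ i ∈ s₂, cE b c v i) * algebraMap E E' Q)) := by ring
      _ = (z * z) * (σ z * σ z) := by rw [hz, hz2]
      _ = _ := by ring
  -- symmetric difference
  have hne : ∀ s : Finset ℕ, s ⊆ Finset.Icc 1 C → ∏ i ∈ s, cE b c y (i + 1) ≠ 0 := by
    intro s hs
    rw [← prod_sh]
    exact hI.head_ne b c (sh_subset hs)
  have hsd : (∏ i ∈ s₁, cE b c y (i + 1)) * (∏ i ∈ s₂, cE b c y (i + 1)) =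
      (∏ i ∈ symmDiff s₁ s₂, cE b c y (i + 1)) * (∏ i ∈ s₁ ∩ s₂, cE b c y (i + 1)) ^ 2 := by
    have e1 : s₁ = (s₁ \ s₂) ∪ (s₁ ∩ s₂) := (Finset.sdiff_union_inter s₁ s₂).symm
    have e2 : s₂ = (s₂ \ s₁) ∪ (s₁ ∩ s₂) := by
      rw [Finset.inter_comm]; exact (Finset.sdiff_union_inter s₂ s₁).symm
    have p1 : ∏ i ∈ s₁, cE b c y (i + 1) = (∏ i ∈ s₁ \ s₂, cE b c y (i + 1)) *
        ∏ i ∈ s₁ ∩ s₂, cE b c y (i + 1) := by
      conv_lhs => rw [e1]
      rw [Finset.prod_union (Finset.disjoint_sdiff_inter s₁ s₂)]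
    have p2 : ∏ i ∈ s₂, cE b c y (i + 1) = (∏ i ∈ s₂ \ s₁, cE b c y (i + 1)) *
        ∏ i ∈ s₁ ∩ s₂, cE b c y (i + 1) := by
      conv_lhs => rw [e2]
      rw [Finset.prod_union (by rw [Finset.inter_comm]; exact Finset.disjoint_sdiff_inter s₂ s₁)]
    have p3 : ∏ i ∈ symmDiff s₁ s₂, cE b c y (i + 1) =
        (∏ i ∈ s₁ \ s₂, cE b c y (i + 1)) * ∏ i ∈ s₂ \ s₁, cE b c y (i + 1) := by
      rw [symmDiff_def, Finset.sup_eq_union, Finset.prod_union disjoint_sdiff_sdiff]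
    rw [p1, p2, p3]
    ring
  have hsub : symmDiff s₁ s₂ ⊆ Finset.Icc 1 C := by
    rw [symmDiff_def, Finset.sup_eq_union]
    exact Finset.union_subset (Finset.sdiff_subset.trans hs₁) (Finset.sdiff_subset.trans hs₂)
  have hinter : s₁ ∩ s₂ ⊆ Finset.Icc 1 C := Finset.inter_subset_left.trans hs₁
  have heq : s₁ = s₂ := by
    rw [hsd, show (∏ i ∈ symmDiff s₁ s₂, cE b c y (i + 1)) * (∏ i ∈ s₁ ∩ s₂, cE b c y (i + 1)) ^ 2 *
      Q ^ 2 = (∏ i ∈ symmDiff s₁ s₂, cE b c y (i + 1)) *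
        ((∏ i ∈ s₁ ∩ s₂, cE b c y (i + 1)) * Q) ^ 2 by ring] at hsq1
    have hM : (∏ i ∈ s₁ ∩ s₂, cE b c y (i + 1)) * Q ≠ 0 := mul_ne_zero (hne _ hinter) hQ0
    rcases sq_desc hD hv hspan hsq1 with h | h
    · have h1 := isSquare_of_mul_sq hM h
      rw [← prod_sh] at h1
      have h2 := hI.head_sq b c (sh_subset hsub) h1
      have h3 : symmDiff s₁ s₂ = ∅ := by
        rw [← Finset.not_nonempty_iff_eq_empty, sh_nonempty.symm.not,
          Finset.not_nonempty_iff_eq_empty]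
        exact h2
      exact symmDiff_eq_bot.mp h3
    · exfalso
      rw [D_eq] at h
      have h1 : IsSquare ((cE b c y 1 * ∏ i ∈ sh (symmDiff s₁ s₂), cE b c y i) *
          (2 * ((∏ i ∈ s₁ ∩ s₂, cE b c y (i + 1)) * Q)) ^ 2) := by
        rw [prod_sh]
        convert h using 1
        ring
      have h2 := isSquare_of_mul_sq (mul_ne_zero two_ne_zero hM) h1
      rw [← Finset.prod_insert (one_notMem_sh hsub)] at h2
      have h3 := hI.head_sq b c (insert_subset hsub) h2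
      exact Finset.insert_ne_empty _ _ h3
  subst heq
  -- second step
  have hnt : s₁.Nonempty ∨ t₂ = true := by
    have h1 := ht.mp rfl
    rcases h1 with h | h
    · exact Or.inl h
    · rw [ht₁] at h
      exact h
  have hP : algebraMap E E' ((∏ i ∈ s₁, cE b c y (i + 1)) * Q) = z * z := by
    rw [← hz, map_mul, ← hAA]
    ring
  rcases sq_desc hD hv hspan ⟨z, hP⟩ with h | h
  · rw [← prod_sh] at h
    refine hI _ ⟨sh s₁, sh_subset hs₁, t₂, Q, hQ, rfl, ?_⟩ h
    simp only [true_iff]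
    rw [sh_nonempty]
    exact hnt
  · rw [D_eq] at h
    have h1 : IsSquare (((∏ i ∈ insert 1 (sh s₁), cE b c y i) * Q) * 2 ^ 2) := by
      rw [Finset.prod_insert (one_notMem_sh hs₁), prod_sh]
      convert h using 1
      ring
    have h2 := isSquare_of_mul_sq two_ne_zero h1
    refine hI _ ⟨insert 1 (sh s₁), insert_subset hs₁, t₂, Q, hQ, rfl, ?_⟩ h2
    simp

end step

end Pool.Agent.H484R2
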