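import Pool.Agent.H47.L.R_seed8.H484R2.Psi

/-! Support and Lipschitz properties of `psi`. -/

set_option autoImplicit false
open Filter Topology NumberField NumberField.InfinitePlace NumberField.Units
open NumberField.Units.dirichletUnitTheorem Module

namespace Pool.Agent.H484R2

lemma lin_bound {ι : Type*} [Fintype ι] (φ : (ι → ℝ) →ₗ[ℝ] ℝ) :
    ∃ C : ℝ, 0 ≤ C ∧ ∀ (v : ι → ℝ) (δ : ℝ), (∀ j, |v j| ≤ δ) → |φ v| ≤ C * δ := by
  classical
  refine ⟨∑ i, |φ (fun j => if i = j then 1 else 0)|, Finset.sum_nonneg fun i _ => abs_nonneg _, ?_⟩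
  intro v δ h
  rw [LinearMap.pi_apply_eq_sum_univ φ v, Finset.sum_mul]
  refine (Finset.abs_sum_le_sum_abs _ _).trans (Finset.sum_le_sum fun i _ => ?_)
  rw [smul_eq_mul, abs_mul, mul_comm]
  gcongr
  exact h i

variable (K : Type) [Field K] [NumberField K]

lemma cu_bound : ∃ C : ℝ, 0 ≤ C ∧ ∀ (i : Fin (rank K)) (v : logSpace K) (δ : ℝ), 0 ≤ δ →
    (∀ j, |v j| ≤ δ) → |(Bu K).repr v i| ≤ C * δ := by
  have h : ∀ i : Fin (rank K), ∃ C : ℝ, 0 ≤ C ∧ ∀ (v : logSpace K) (δ : ℝ),
      (∀ j, |v j| ≤ δ) → |(Bu K).repr v i| ≤ C * δ := by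
    intro i
    classical
    exact lin_bound ((Bu K).coord i)
  choose C hC0 hC using h
  refine ⟨∑ i, C i, Finset.sum_nonneg fun i _ => hC0 i, fun i v δ hδ hv => ?_⟩
  refine (hC i v δ hv).trans ?_
  gcongr
  exact Finset.single_le_sum (fun i _ => hC0 i) (Finset.mem_univ i)

lemma lN_lip {x y : K} {δ : ℝ}
    (h : ∀ w : InfinitePlace K, |Real.log (w x) - Real.log (w y)| ≤ δ) :
    |lN K x - lN K y| ≤ finrank ℚ K * δ := by
  unfold lN
  rw [← Finset.sum_sub_distrib]
  refine (Finset.abs_sum_le_sum_abs _ _).trans ?_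
  have h2 : ∀ w : InfinitePlace K, |(mult w : ℝ) * Real.log (w x) - (mult w : ℝ) * Real.log (w y)| ≤
      (mult w : ℝ) * δ := by
    intro w
    rw [← mul_sub, abs_mul, Nat.abs_cast]
    gcongr
    exact h w
  refine (Finset.sum_le_sum fun w _ => h2 w).trans ?_
  rw [← Finset.sum_mul]
  apply le_of_eq
  congr 1
  exact_mod_cast InfinitePlace.sum_mult_eq (K := K)

lemma psi_lip : ∃ C : ℝ, 0 ≤ C ∧ ∀ (x y : K) (δ : ℝ), 0 ≤ δ →
    (∀ w : InfinitePlace K, |Real.log (w x) - Real.log (w y)| ≤ δ) →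
    |psi K x - psi K y| ≤ C * δ := by
  obtain ⟨C, hC0, hC⟩ := cu_bound K
  have hn : (0 : ℝ) < finrank ℚ K := by exact_mod_cast finrank_pos
  refine ⟨(Fintype.card (Fin (rank K)) : ℝ) * (C * 4), by positivity, fun x y δ hδ h => ?_⟩
  have hlg : ∀ w, |(lg K x - lg K y) w| ≤ 4 * δ := by
    intro w
    simp only [Pi.sub_apply, lg]
    have hm : (mult w.1 : ℝ) ≤ 2 := by
      have := w.1.isReal_or_isComplex
      rcases this with hr | hc
      · rw [mult_isReal ⟨w.1, hr⟩]; norm_num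
      · rw [mult_isComplex ⟨w.1, hc⟩]; norm_num
    have h1 : |(Real.log (w.1 x) - lN K x / (finrank ℚ K : ℝ)) -
        (Real.log (w.1 y) - lN K y / (finrank ℚ K : ℝ))| ≤ 2 * δ := by
      have h3 : |lN K x / (finrank ℚ K : ℝ) - lN K y / (finrank ℚ K : ℝ)| ≤ δ := by
        rw [← sub_div, abs_div, abs_of_pos hn, div_le_iff₀ hn]
        have := lN_lip K h
        linarith
      have h4 := h w.1
      rw [abs_le] at h3 h4 ⊢
      constructor <;> linarith [h3.1, h3.2, h4.1, h4.2]
    rw [← mul_sub, abs_mul, Nat.abs_cast]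
    calc (mult w.1 : ℝ) * _ ≤ 2 * (2 * δ) := by gcongr
      _ = 4 * δ := by ring
  have hcu : ∀ i, |cu K x i - cu K y i| ≤ C * (4 * δ) := by
    intro i
    have := hC i (lg K x - lg K y) (4 * δ) (by positivity) hlg
    rw [map_sub, Finsupp.sub_apply] at this
    exact this
  unfold psi
  refine (abs_prod_sub_prod_le _ _ _ (fun i => hat_nonneg _) (fun i => hat_le_one _)
    (fun i => hat_nonneg _) (fun i => hat_le_one _)).trans ?_
  refine (Finset.sum_le_card_nsmul _ _ (C * (4 * δ)) fun i _ => (hat_lip _ _).trans (hcu i)).trans ?_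
  rw [nsmul_eq_mul, Finset.card_univ]
  apply le_of_eq
  ring

lemma psi_supp : ∃ c : ℝ, 0 < c ∧ ∀ x : K, x ≠ 0 → psi K x ≠ 0 →
    ∀ w w' : InfinitePlace K, c * w' x ≤ w x := by
  classical
  obtain ⟨B, hB0, hB⟩ : ∃ B : ℝ, 0 ≤ B ∧ ∀ x : K, psi K x ≠ 0 → ∀ j, |lg K x j| ≤ B := by
    refine ⟨∑ i, ∑ j, |Bu K i j|, Finset.sum_nonneg fun i _ => Finset.sum_nonneg fun j _ => abs_nonneg _,
      fun x hx j => ?_⟩
    have h1 : ∀ i, |cu K x i| < 1 := by
      intro i
      apply abs_lt_of_hat_ne_zero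
      intro h0
      exact hx (Finset.prod_eq_zero (Finset.mem_univ i) h0)
    have h2 : lg K x = ∑ i, cu K x i • Bu K i := ((Bu K).sum_repr (lg K x)).symm
    rw [h2, Finset.sum_apply]
    refine (Finset.abs_sum_le_sum_abs _ _).trans (Finset.sum_le_sum fun i _ => ?_)
    rw [Pi.smul_apply, smul_eq_mul, abs_mul]
    calc |cu K x i| * |Bu K i j| ≤ 1 * |Bu K i j| := by gcongr; exact (h1 i).le
      _ = |Bu K i j| := one_mul _
      _ ≤ ∑ j, |Bu K i j| := Finset.single_le_sum (f := fun j => |Bu K i j|)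
          (fun j _ => abs_nonneg _) (Finset.mem_univ j)
  have hn : (0 : ℝ) < finrank ℚ K := by exact_mod_cast finrank_pos
  set N : ℝ := (Fintype.card (InfinitePlace K) : ℝ) with hN
  have hN0 : 0 ≤ N := by positivity
  -- bound for all places
  have key : ∀ x : K, psi K x ≠ 0 → ∀ w : InfinitePlace K,
      |Real.log (w x) - lN K x / (finrank ℚ K : ℝ)| ≤ (N + 1) * B := by
    intro x hx w
    have hne : ∀ j : {w : InfinitePlace K // w ≠ w₀},
        |Real.log (j.1 x) - lN K x / (finrank ℚ K : ℝ)| ≤ B := by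
      intro j
      have h1 := hB x hx j
      simp only [lg] at h1
      rw [abs_mul, Nat.abs_cast] at h1
      have hm : (1 : ℝ) ≤ mult j.1 := by exact_mod_cast one_le_mult
      nlinarith [abs_nonneg (Real.log (j.1 x) - lN K x / (finrank ℚ K : ℝ))]
    by_cases hw : w = w₀
    · have hsum : ∑ w : InfinitePlace K, (mult w : ℝ) *
          (Real.log (w x) - lN K x / (finrank ℚ K : ℝ)) = 0 := by
        simp_rw [mul_sub]
        rw [Finset.sum_sub_distrib, ← Finset.sum_mul]
        have h3 : (∑ w : InfinitePlace K, (mult w : ℝ)) = finrank ℚ K := by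
          exact_mod_cast InfinitePlace.sum_mult_eq (K := K)
        rw [h3]
        field_simp
        unfold lN
        ring
      rw [Fintype.sum_eq_add_sum_subtype_ne _ (w₀ : InfinitePlace K)] at hsum
      have h4 : |(mult (w₀ : InfinitePlace K) : ℝ) *
          (Real.log ((w₀ : InfinitePlace K) x) - lN K x / (finrank ℚ K : ℝ))| ≤ N * B := by
        have h5 : (mult (w₀ : InfinitePlace K) : ℝ) *
          (Real.log ((w₀ : InfinitePlace K) x) - lN K x / (finrank ℚ K : ℝ)) =
          - ∑ j : {w : InfinitePlace K // w ≠ w₀}, lg K x j := by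
          have h6 : ∑ j : {w : InfinitePlace K // w ≠ w₀}, lg K x j =
            ∑ j : {w : InfinitePlace K // w ≠ w₀}, (mult j.1 : ℝ) *
              (Real.log (j.1 x) - lN K x / (finrank ℚ K : ℝ)) := rfl
          rw [h6]
          linarith
        rw [h5, abs_neg]
        refine (Finset.abs_sum_le_sum_abs _ _).trans ?_
        refine (Finset.sum_le_card_nsmul _ _ B fun j _ => hB x hx j).trans ?_
        rw [nsmul_eq_mul, Finset.card_univ]
        gcongr
        rw [hN]
        exact_mod_cast Fintype.card_subtype_le _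
      rw [abs_mul, Nat.abs_cast] at h4
      have hm : (1 : ℝ) ≤ mult (w₀ : InfinitePlace K) := by exact_mod_cast one_le_mult
      rw [hw]
      nlinarith [abs_nonneg (Real.log ((w₀ : InfinitePlace K) x) - lN K x / (finrank ℚ K : ℝ))]
    · have := hne ⟨w, hw⟩
      simp only at this
      nlinarith
  refine ⟨Real.exp (-(2 * ((N + 1) * B))), Real.exp_pos _, fun x hx0 hx w w' => ?_⟩
  have h1 := key x hx w
  have h2 := key x hx w'
  rw [abs_le] at h1 h2
  have hw : 0 < w x := (w.pos_iff).mpr hx0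
  have hw' : 0 < w' x := (w'.pos_iff).mpr hx0
  have h3 : Real.log (w' x) - 2 * ((N + 1) * B) ≤ Real.log (w x) := by linarith [h1.1, h2.2]
  calc Real.exp (-(2 * ((N + 1) * B))) * w' x
      = Real.exp (-(2 * ((N + 1) * B))) * Real.exp (Real.log (w' x)) := by rw [Real.exp_log hw']
    _ = Real.exp (Real.log (w' x) - 2 * ((N + 1) * B)) := by rw [← Real.exp_add]; ring_nf
    _ ≤ Real.exp (Real.log (w x)) := Real.exp_le_exp.mpr h3
    _ = w x := Real.exp_log hw

end Pool.Agent.H484R2
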