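import Pool.Agent.H47.L.R_seed8.H484R2.HomExt2

/-! The mean value recursion. -/

set_option autoImplicit false
open Polynomial NumberField Module Filter Topology

namespace Pool.Agent.H484R2

/-- the prime ideal theorem, in the form used -/
def PIT : Prop := ∀ (K : Type) [Field K] [NumberField K],
    Tendsto (fun N : ℕ => (∑ p ∈ (Finset.range (N + 1)).filter Nat.Prime,
      (Nat.card (𝓞 K →+* ZMod p) : ℝ)) / (Nat.primeCounting N : ℝ)) atTop (𝓝 1)

/-- `φ_0 = 1`, `φ_{n+1} = φ_n - φ_n^2/2` -/
noncomputable def phi : ℕ → ℝ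
  | 0 => 1
  | n + 1 => phi n - phi n ^ 2 / 2

lemma phi_bounds (n : ℕ) : 0 ≤ phi n ∧ phi n ≤ 1 := by
  induction n with
  | zero => simp [phi]
  | succ n ih =>
    obtain ⟨h0, h1⟩ := ih
    simp only [phi]
    constructor
    · nlinarith
    · nlinarith

lemma phi_tendsto : Tendsto phi atTop (𝓝 0) := by
  have hanti : Antitone phi := antitone_nat_of_succ_le fun n => by
    simp only [phi]
    nlinarith [sq_nonneg (phi n)]
  have hbdd : BddBelow (Set.range phi) := ⟨0, by
    rintro _ ⟨n, rfl⟩
    exact (phi_bounds n).1⟩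
  have h := tendsto_atTop_ciInf hanti hbdd
  set l := ⨅ i, phi i with hl
  have h1 : Tendsto (fun n => phi (n + 1)) atTop (𝓝 l) := h.comp (tendsto_add_atTop_nat 1)
  have h2 : Tendsto (fun n => phi n - phi n ^ 2 / 2) atTop (𝓝 (l - l ^ 2 / 2)) :=
    h.sub ((h.pow 2).div_const 2)
  have h3 : l = l - l ^ 2 / 2 := tendsto_nhds_unique h1 h2
  have h4 : l = 0 := by nlinarith
  rwa [h4] at h

lemma primeCounting_tendsto_real :
    Tendsto (fun N : ℕ => (Nat.primeCounting N : ℝ)) atTop atTop :=
  tendsto_natCast_atTop_atTop.comp Nat.tendsto_primeCounting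

/-- the counting function -/
noncomputable def AC {E : Type} [Field E] [NumberField E] (b c : ℤ) (L : List (ℕ × 𝓞 E)) (N : ℕ) :
    ℝ := ∑ p ∈ (Finset.range (N + 1)).filter Nat.Prime, (HC b c p L : ℝ)

/-- measure of a list -/
def mu {α : Type} (L : List (ℕ × α)) : ℕ := (L.map fun q => 3 ^ q.1).sum

lemma mu_mapL {E : Type} [Field E] [NumberField E] (E' : Type) [Field E'] [NumberField E']
    [Algebra E E'] (L : List (ℕ × 𝓞 E)) : mu (mapL E' L) = mu L := by
  unfold mu mapL
  rw [List.map_map]
  rfl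

lemma prod_mapL {E : Type} [Field E] [NumberField E] (E' : Type) [Field E'] [NumberField E']
    [Algebra E E'] (L : List (ℕ × 𝓞 E)) :
    ((mapL E' L).map fun q => phi q.1).prod = (L.map fun q => phi q.1).prod := by
  unfold mapL
  rw [List.map_map]
  rfl

theorem mean (hPIT : PIT) (b c : ℤ) : ∀ n : ℕ, ∀ (E : Type) [Field E] [NumberField E]
    (L : List (ℕ × 𝓞 E)), mu L = n → Ind b c L →
    Tendsto (fun N : ℕ => AC b c L N / (Nat.primeCounting N : ℝ)) atTop
      (𝓝 ((L.map fun q => phi q.1).prod)) := by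
  intro n
  induction n using Nat.strong_induction_on with
  | _ n ih =>
  intro E _ _ L hn hI
  match L, hn, hI with
  | [], hn, hI =>
    have h := hPIT E
    have h2 : ∀ p : ℕ, HC b c p ([] : List (ℕ × 𝓞 E)) = Nat.card (𝓞 E →+* ZMod p) := by
      intro p
      unfold HC
      exact Nat.card_congr (Equiv.subtypeUnivEquiv fun φ => by simp [cond])
    simp only [AC, h2, List.map_nil, List.prod_nil]
    exact h
  | (0, y) :: L, hn, hI =>
    have h2 : ∀ p : ℕ, HC b c p ((0, y) :: L) = HC b c p L := by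
      intro p
      unfold HC
      refine Nat.card_congr (Equiv.subtypeEquivRight fun φ => ?_)
      rw [cond_cons]
      simp
    have h3 : mu L < n := by
      rw [← hn]
      unfold mu
      simp
    have h := ih (mu L) h3 E L rfl (Ind.tail b c hI)
    simp only [AC, h2, List.map_cons, List.prod_cons, phi, one_mul]
    exact h
  | (C + 1, y) :: L, hn, hI =>
    have hD : ¬ IsSquare (4 * (y : E) + b ^ 2 - 4 * c) := by
      intro hsq
      rw [D_eq, show (4 : E) * cE b c y 1 = cE b c y 1 * 2 ^ 2 by ring] at hsq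
      have h1 := isSquare_of_mul_sq two_ne_zero hsq
      have h2 := hI.head_sq b c (s := {1}) (by simp) (by simpa using h1)
      exact absurd h2 (by simp)
    obtain ⟨E', hF, hNF, hA, v, σ, hv, hσ, hspan⟩ := exists_quad E b c y hD
    obtain ⟨N₀, hN₀, hND, hN⟩ := exists_index hD hv σ hσ hspan
    obtain ⟨v₂, hv₂⟩ : ∃ v₂ : 𝓞 E', (v₂ : E') = -b - v := ⟨-b - v, by
      simp only [map_sub, map_neg, map_intCast]⟩
    have hI₁₂ := ind_step hI hv hv₂ σ hσ hspan
    have hI₁ := Ind.drop_second b c hI₁₂
    have hI₂ := Ind.tail b c hI₁₂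
    have hmu : n = 3 ^ (C + 1) + mu L := by
      rw [← hn]
      unfold mu
      simp
    have h3 : 0 < 3 ^ C := by positivity
    have m₁₂ : mu ((C, v) :: (C, v₂) :: mapL E' L) < n := by
      have e : mu ((C, v) :: (C, v₂) :: mapL E' L) = 3 ^ C + (3 ^ C + mu L) := by
        rw [← mu_mapL E' L]
        unfold mu
        simp
      rw [e, hmu, pow_succ]
      omega
    have m₁ : mu ((C, v) :: mapL E' L) < n := by
      have e : mu ((C, v) :: mapL E' L) = 3 ^ C + mu L := by
        rw [← mu_mapL E' L]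
        unfold mu
        simp
      rw [e, hmu, pow_succ]
      omega
    have m₂ : mu ((C, v₂) :: mapL E' L) < n := by
      have e : mu ((C, v₂) :: mapL E' L) = 3 ^ C + mu L := by
        rw [← mu_mapL E' L]
        unfold mu
        simp
      rw [e, hmu, pow_succ]
      omega
    have t₁₂ := ih _ m₁₂ E' _ rfl hI₁₂
    have t₁ := ih _ m₁ E' _ rfl hI₁
    have t₂ := ih _ m₂ E' _ rfl hI₂
    simp only [List.map_cons, List.prod_cons, prod_mapL] at t₁₂ t₁ t₂ ⊢
    -- the defect
    set d : ℕ → ℝ := fun p => 2 * (HC b c p ((C + 1, y) :: L) : ℝ) +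
      (HC b c p ((C, v) :: (C, v₂) :: mapL E' L) : ℝ) - (HC b c p ((C, v) :: mapL E' L) : ℝ) -
      (HC b c p ((C, v₂) :: mapL E' L) : ℝ) with hd
    have hd0 : ∀ p : ℕ, p.Prime → N₀ < p → d p = 0 := by
      intro p hp hlt
      have : Fact p.Prime := ⟨hp⟩
      have hp0 : (N₀ : ZMod p) ≠ 0 := by
        rw [Ne, ZMod.natCast_eq_zero_iff]
        intro hdvd
        exact absurd (Nat.le_of_dvd (Nat.pos_of_ne_zero hN₀) hdvd) (by omega)
      have h := count_identity hD hv hv₂ hND hN hp0 C L
      have h' : 2 * (HC b c p ((C + 1, y) :: L) : ℝ) +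
        (HC b c p ((C, v) :: (C, v₂) :: mapL E' L) : ℝ) = (HC b c p ((C, v) :: mapL E' L) : ℝ) +
        (HC b c p ((C, v₂) :: mapL E' L) : ℝ) := by exact_mod_cast h
      simp only [hd]
      linarith
    set K₀ : ℝ := ∑ p ∈ (Finset.range (N₀ + 1)).filter Nat.Prime, d p with hK₀
    have hsum : ∀ N : ℕ, N₀ ≤ N → ∑ p ∈ (Finset.range (N + 1)).filter Nat.Prime, d p = K₀ := by
      intro N hN'
      rw [hK₀]
      symm
      refine Finset.sum_subset ?_ ?_
      · intro p hp
        simp only [Finset.mem_filter, Finset.mem_range] at hp ⊢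
        exact ⟨by omega, hp.2⟩
      · intro p hp hnp
        simp only [Finset.mem_filter, Finset.mem_range, not_and] at hp hnp
        refine hd0 p hp.2 ?_
        by_contra hle
        exact hnp (by omega) hp.2
    have hAC : ∀ N : ℕ, N₀ ≤ N → AC b c ((C + 1, y) :: L) N =
        (AC b c ((C, v) :: mapL E' L) N + AC b c ((C, v₂) :: mapL E' L) N -
          AC b c ((C, v) :: (C, v₂) :: mapL E' L) N + K₀) / 2 := by
      intro N hN'
      have h := hsum N hN'
      simp only [hd, Finset.sum_sub_distrib, Finset.sum_add_distrib, ← Finset.mul_sum] at h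
      simp only [AC]
      linarith
    have hK : Tendsto (fun N : ℕ => K₀ / (Nat.primeCounting N : ℝ)) atTop (𝓝 0) :=
      tendsto_const_nhds.div_atTop primeCounting_tendsto_real
    have hlim := (((t₁.add t₂).sub t₁₂).add hK).div_const 2
    have hval : (phi C * (L.map fun q => phi q.1).prod + phi C * (L.map fun q => phi q.1).prod -
        phi C * (phi C * (L.map fun q => phi q.1).prod) + 0) / 2 =
        phi (C + 1) * (L.map fun q => phi q.1).prod := by
      simp only [phi]
      ring
    rw [hval] at hlim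
    refine hlim.congr' ?_
    filter_upwards [eventually_ge_atTop N₀] with N hN'
    rw [hAC N hN']
    ring

end Pool.Agent.H484R2
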