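import Pool.Agent.H47.L.R_seed8.H484R2.Hat

/-! The partition of unity `psi` over the unit group of a number field. -/

set_option autoImplicit false
open Filter Topology NumberField NumberField.InfinitePlace NumberField.Units
open NumberField.Units.dirichletUnitTheorem Module

namespace Pool.Agent.H484R2

variable (K : Type) [Field K] [NumberField K]

/-- logarithm of the absolute norm -/
noncomputable def lN (x : K) : ℝ := ∑ w : InfinitePlace K, (mult w : ℝ) * Real.log (w x)

/-- normalised logarithmic vector -/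
noncomputable def lg (x : K) : logSpace K := fun w =>
  (mult w.1 : ℝ) * (Real.log (w.1 x) - lN K x / (finrank ℚ K : ℝ))

open scoped Classical in
/-- real basis of the log space given by the fundamental units -/
noncomputable def Bu : Basis (Fin (rank K)) ℝ (logSpace K) :=
  (basisUnitLattice K).ofZLatticeBasis ℝ (unitLattice K)

/-- coordinates -/
noncomputable def cu (x : K) (i : Fin (rank K)) : ℝ := (Bu K).repr (lg K x) i

/-- the weight -/
noncomputable def psi (x : K) : ℝ := ∏ i, hat (cu K x i)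

lemma psi_nonneg (x : K) : 0 ≤ psi K x := Finset.prod_nonneg fun i _ => hat_nonneg _

lemma psi_le_one (x : K) : psi K x ≤ 1 :=
  Finset.prod_le_one (fun i _ => hat_nonneg _) (fun i _ => hat_le_one _)

lemma lN_mul {x y : K} (hx : x ≠ 0) (hy : y ≠ 0) : lN K (x * y) = lN K x + lN K y := by
  unfold lN
  rw [← Finset.sum_add_distrib]
  refine Finset.sum_congr rfl fun w _ => ?_
  rw [map_mul, Real.log_mul ((map_ne_zero w).mpr hx) ((map_ne_zero w).mpr hy)]
  ring

lemma lN_eq {x : K} (hx : x ≠ 0) : lN K x = Real.log |(Algebra.norm ℚ x : ℝ)| := by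
  have h := InfinitePlace.prod_eq_abs_norm x
  have h2 : (|(Algebra.norm ℚ x : ℝ)| : ℝ) = ∏ w : InfinitePlace K, w x ^ mult w := by
    rw [h]; push_cast; rfl
  rw [h2, Real.log_prod (fun w _ => pow_ne_zero _ ((map_ne_zero w).mpr hx))]
  unfold lN
  refine Finset.sum_congr rfl fun w _ => ?_
  rw [Real.log_pow]

lemma lN_unit (u : (𝓞 K)ˣ) : lN K (u : K) = 0 := sum_mult_mul_log u

lemma lg_mul {x y : K} (hx : x ≠ 0) (hy : y ≠ 0) : lg K (x * y) = lg K x + lg K y := by
  ext w
  simp only [lg, Pi.add_apply]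
  rw [lN_mul K hx hy, map_mul, Real.log_mul ((map_ne_zero w.1).mpr hx) ((map_ne_zero w.1).mpr hy)]
  ring

lemma lg_unit (u : (𝓞 K)ˣ) : lg K (u : K) = logEmbedding K (Additive.ofMul u) := by
  ext w
  simp only [lg, lN_unit, zero_div, sub_zero]
  rfl

lemma lN_nat {m : ℕ} (hm : m ≠ 0) : lN K (m : K) = (finrank ℚ K : ℝ) * Real.log m := by
  unfold lN
  have : ∀ w : InfinitePlace K, w (m : K) = m := fun w => by simp
  simp_rw [this]
  rw [← Finset.sum_mul]
  congr 1
  exact_mod_cast InfinitePlace.sum_mult_eq (K := K)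

lemma lg_nat {m : ℕ} (hm : m ≠ 0) : lg K (m : K) = 0 := by
  ext w
  have hn : (finrank ℚ K : ℝ) ≠ 0 := by exact_mod_cast (finrank_pos (R := ℚ) (M := K)).ne'
  simp only [lg, lN_nat K hm]
  have : w.1 (m : K) = m := by simp
  rw [this]
  field_simp
  simp

lemma cu_nat_mul {m : ℕ} (hm : m ≠ 0) {x : K} (hx : x ≠ 0) : cu K ((m : K) * x) = cu K x := by
  have hm' : (m : K) ≠ 0 := by exact_mod_cast hm
  ext i
  unfold cu
  rw [lg_mul K hm' hx, lg_nat K hm, zero_add]

lemma psi_nat_mul {m : ℕ} (hm : m ≠ 0) {x : K} (hx : x ≠ 0) : psi K ((m : K) * x) = psi K x := by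
  unfold psi
  rw [cu_nat_mul K hm hx]

/-- the parametrisation of the unit group -/
noncomputable def unitE : torsion K × (Fin (rank K) → ℤ) ≃ (𝓞 K)ˣ :=
  Equiv.ofBijective (fun ζe => (ζe.1 : (𝓞 K)ˣ) * ∏ i, (fundSystem K i) ^ (ζe.2 i)) <| by
    rw [Function.bijective_iff_existsUnique]
    intro u
    obtain ⟨p, hp, hu⟩ := exist_unique_eq_mul_prod K u
    exact ⟨p, hp.symm, fun q hq => hu q hq.symm⟩

lemma cu_unit (p : torsion K × (Fin (rank K) → ℤ)) {x : K} (hx : x ≠ 0) (i : Fin (rank K)) :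
    cu K ((unitE K p : (𝓞 K)ˣ) * x) i = p.2 i + cu K x i := by
  have hu : ((unitE K p : (𝓞 K)ˣ) : K) ≠ 0 := by simp
  unfold cu
  rw [lg_mul K hu hx, map_add, Finsupp.add_apply, lg_unit]
  congr 1
  have h1 : logEmbedding K (Additive.ofMul (unitE K p)) =
      ∑ i, p.2 i • (basisUnitLattice K i : logSpace K) := by
    change logEmbedding K (Additive.ofMul ((p.1 : (𝓞 K)ˣ) * ∏ i, (fundSystem K i) ^ (p.2 i))) = _
    rw [ofMul_mul, map_add, ofMul_prod, map_sum]
    have : logEmbedding K (Additive.ofMul (p.1 : (𝓞 K)ˣ)) = 0 :=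
      logEmbedding_eq_zero_iff.mpr p.1.2
    rw [this, zero_add]
    refine Finset.sum_congr rfl fun i _ => ?_
    rw [ofMul_zpow, map_zsmul, logEmbedding_fundSystem]
  have hB : ∀ i, (basisUnitLattice K i : logSpace K) = Bu K i := fun i => by
    unfold Bu
    rw [Basis.ofZLatticeBasis_apply]
  rw [h1]
  simp_rw [hB]
  rw [map_sum, Finsupp.finsetSum_apply]
  simp_rw [map_zsmul, Finsupp.smul_apply, Basis.repr_self, Finsupp.single_apply]
  simp


lemma hasSum_gen {T ι : Type} [Finite T] [Fintype ι] (θ : ι → ℝ) :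
    HasSum (fun p : T × (ι → ℤ) => ∏ i, hat (p.2 i + θ i)) (Nat.card T) := by
  have : Fintype T := Fintype.ofFinite _
  have h1 : HasSum (fun _ : T => (1 : ℝ)) (Nat.card T) := by
    have := hasSum_fintype (fun _ : T => (1 : ℝ))
    simp only [Finset.sum_const, Finset.card_univ, nsmul_eq_mul, mul_one] at this
    rwa [Nat.card_eq_fintype_card]
  have h2 := hat_sum_pi θ
  have h3 : Summable fun p : T × (ι → ℤ) => (1 : ℝ) * ∏ i, hat (p.2 i + θ i) :=
    Summable.mul_of_nonneg h1.summable h2.summable (fun _ => zero_le_one)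
      (fun k => Finset.prod_nonneg fun i _ => hat_nonneg _)
  have h4 := h1.mul h2 h3
  rw [mul_one] at h4
  simpa only [one_mul] using h4

lemma psi_unit (p : torsion K × (Fin (rank K) → ℤ)) {x : K} (hx : x ≠ 0) :
    psi K ((unitE K p : (𝓞 K)ˣ) * x) = ∏ i, hat (p.2 i + cu K x i) := by
  unfold psi
  refine Finset.prod_congr rfl fun i _ => ?_
  rw [cu_unit K p hx i]

lemma hasSum_psi {x : K} (hx : x ≠ 0) :
    HasSum (fun u : (𝓞 K)ˣ => psi K ((u : K) * x)) (torsionOrder K) := by
  refine (unitE K).hasSum_iff.mp ?_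
  have h := hasSum_gen (T := torsion K) (cu K x)
  have h5 : (fun u : (𝓞 K)ˣ => psi K ((u : K) * x)) ∘ unitE K =
      (fun p : torsion K × (Fin (rank K) → ℤ) => ∏ i, hat (p.2 i + cu K x i)) := by
    funext p
    exact psi_unit K p hx
  rw [h5]
  exact h

end Pool.Agent.H484R2
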